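import Pool.Agent.Y784.PH.ELB

/-!
# PH-ELX (helper482): elimination of the variables, with expansions
-/

set_option autoImplicit false

namespace Pool.Agent.Y784.PH

open Finset Filter Topology Metric
open Pool.Agent.W711.HT Pool.Agent.Y472 Pool.Agent.Y232.CB
open Pool.Agent.Y481 (itN itG Sep LN LN_lin itG_sep)
open Pool.Agent.W719.AX (UX ig S_LX S_LOCX S_UXMUL)
open Pool.Agent.Y482.Ph (EXL S_LOCN S_ELX)
open Pool.Agent.W293.HT (GH isOpen_Rc Rc_mono mem_Rc_of_norm crit_props)
open scoped Real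

theorem ux_tendsto {E : Type} {Y A : ℕ → E → ℂ} {S : Set E} (h : UX Y A S) {p : E} (hp : p ∈ S) :
    Tendsto (fun N => Y N p) atTop (𝓝 (A 0 p)) := by
  obtain ⟨C, hC⟩ := h 1
  rw [tendsto_iff_norm_sub_tendsto_zero]
  refine squeeze_zero' (Eventually.of_forall fun _ => norm_nonneg _) (hC.mono fun N hN => ?_)
    (tendsto_const_div_atTop_nhds_zero_nat C)
  have h1 := hN p hp
  rwa [Finset.sum_range_one, pow_zero, div_one, pow_one] at h1

variable {L : ℕ} {R c B p₀ C : ℝ} {S : (ℕ → ℂ) → ℂ} {D : ℕ → (ℕ → ℂ) → ℂ} {a : ℕ → ℤ}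
  {zz : ℕ → (ℕ → ℂ) → ℕ → ℂ}

theorem f_LOCX : S_LOCX :=
  Pool.Agent.W21.AX.locx (Pool.Agent.W762.AX.lx Pool.Agent.W303.AX.uxbd) Pool.Agent.W303.AX.uxmul

theorem one_GX (r : ℝ) : Pool.Agent.W719.AX.GX r r 0 (fun _ _ => 1) (fun _ => 0)
    (fun k _ => if k = 0 then 1 else 0) := by
  refine ⟨?_, ?_, ?_⟩
  · intro K
    refine ⟨1, ?_⟩
    filter_upwards [eventually_gt_atTop 0] with N hN p _
    rcases K with _ | K
    · simp
    · rw [Finset.sum_range_succ']
      simp
  · intro k
    exact differentiableOn_const _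
  · intro z _
    simp

/-- the value with the terms of the first regions is bounded -/
theorem U_bd (hP : Pot L R c B p₀ S D) (hK : Crt L R c B p₀ C S D a zz) {j : ℕ} (hj : j ≤ L) :
    ∃ B' : ℝ, ∀ ψ ∈ Bx L (R / 2), ‖Uj S a j (zz j ψ)‖ ≤ B' := by
  have hR := hP.hR.1
  refine ⟨B + ∑ i ∈ range j, C / |(a i : ℝ)|, fun ψ hψ => ?_⟩
  have h1 := (hK.close j hj ψ hψ).1
  have hm : (fun i => if i < j then 0 else ψ i) ∈ Bx L R := by
    intro i hi
    dsimp only
    split_ifs
    · exact mem_Rc_of_norm le_rfl (by rw [norm_zero]; exact hR)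
    · exact Rc_mono (by linarith) (by linarith) (hψ i hi)
  have h2 := (hP.bd _ hm).1
  have h3 := norm_add_le (Uj S a j (zz j ψ) - S (fun i => if i < j then 0 else ψ i))
    (S (fun i => if i < j then 0 else ψ i))
  rw [sub_add_cancel] at h3
  linarith

/-- the values on the box with `r < R / 2` -/
theorem upd_Bx {r r' : ℝ} {ψ : ℕ → ℂ} (hψ : ψ ∈ Bx L r) (j : ℕ) {w : ℂ} (hw : w ∈ Rc (R / 4) (R / 4))
    (h1 : r ≤ r') (h2 : R / 4 ≤ r') : Function.update ψ j w ∈ Bx L r' :=
  upd_mem (Bx_mono h1 hψ) j (Rc_mono h2 h2 hw)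

theorem ex_upd {x : Fin L → ℂ} {j : ℕ} (hj : j < L) (w : ℂ) :
    Function.update (ex L x) j w = ex L (Function.update x ⟨j, hj⟩ w) := by
  funext i
  by_cases h : i = j
  · subst h
    rw [Function.update_self, ex_apply _ hj, Function.update_self]
  · rw [Function.update_of_ne h]
    by_cases hi : i < L
    · rw [ex_apply _ hi, ex_apply _ hi, Function.update_of_ne]
      intro h1
      exact h (congrArg Fin.val h1)
    · rw [ex_apply' _ hi, ex_apply' _ hi]

/-- the step, without the uniform lower bound -/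
theorem step0 (hLN : S_LOCN) (hP : Pot L R c B p₀ S D) (hK : Crt L R c B p₀ C S D a zz)
    (hC : 0 < C) {j : ℕ} (hj : j < L) (haj : MM R c B C ≤ |(a j : ℝ)|) (ha0 : a j ≠ 0)
    {F : ℕ → (ℕ → ℂ) → ℂ} (hF : ∀ᶠ N : ℕ in atTop, Sep L (F N))
    (hEX : ∀ r : ℝ, 0 < r → r < R / 2 → EXL L r F fun ψ => Uj S a j (zz j ψ))
    {r : ℝ} (hr : 0 < r) (hr2 : r < R / 2) :
    ∃ A : ℕ → (ℕ → ℂ) → ℂ, UX (fun N ψ => Complex.exp (-(N * Uj S a (j + 1) (zz (j + 1) ψ))) *
      ((Real.sqrt N : ℂ) * (-1) ^ N * LN (R / 8) (a j) N fun w => F N (Function.update ψ j w)))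
      A (Bx L r) ∧ ∀ ψ ∈ Bx L r, A 0 ψ ≠ 0 := by
  have hR := hP.hR.1
  have hR1 := hP.hR.2
  have hc := hP.hc
  -- the radius of the box of the hypothesis
  obtain ⟨r', hr'1, hr'2, hr'3⟩ : ∃ r' : ℝ, r < r' ∧ R / 4 ≤ r' ∧ r' < R / 2 := by
    refine ⟨max ((r + R / 2) / 2) (R / 4), ?_, le_max_right _ _, ?_⟩
    · exact lt_of_lt_of_le (by linarith) (le_max_left _ _)
    · exact max_lt (by linarith) (by linarith)
  obtain ⟨r'', hr''1, hr''2⟩ : ∃ r'' : ℝ, r < r'' ∧ r'' < r' :=
    ⟨(r + r') / 2, by linarith, by linarith⟩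
  obtain ⟨A, c₁, hc₁, hux, hA0, hAd⟩ := hEX r' (by linarith) hr'3
  have hR2sub : ∀ {ρ : ℝ}, ρ ≤ R / 2 → Bx L ρ ⊆ Bx L (R / 2) := fun h => Bx_mono h
  have hRc : Rc (2 * (R / 8)) (2 * (R / 8)) = Rc (R / 4) (R / 4) := by
    have : 2 * (R / 8) = R / 4 := by ring
    rw [this]
  have hRcm : Rc (R / 4) (R / 4) ⊆ Rc (R / 2) (R / 2) := Rc_mono (by linarith) (by linarith)
  -- the functions `Y`
  classical
  obtain ⟨N₀, hN₀⟩ := eventually_atTop.1 hF
  set F' : ℕ → (ℕ → ℂ) → ℂ := fun N => if N₀ ≤ N then F N else fun _ => 1 with hF'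
  have hF'S : ∀ N, Sep L (F' N) := by
    intro N
    rw [hF']
    dsimp only
    split_ifs with h
    · exact hN₀ N h
    · exact Sep.const 1
  have hF'e : ∀ᶠ N : ℕ in atTop, F' N = F N := by
    filter_upwards [eventually_ge_atTop N₀] with N hN
    rw [hF']
    simp only [hN, if_true]
  have hux' : UX (fun N ψ => Complex.exp (-(N * Uj S a j (zz j ψ))) * F' N ψ) A (Bx L r') := by
    intro K
    obtain ⟨C', h⟩ := hux K
    refine ⟨C', ?_⟩
    filter_upwards [h, hF'e] with N h1 h2
    rw [h2]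
    exact h1
  have hMW := mw_of_ux hc₁ hux' hA0
  -- the set of parameters
  have hKb : ∀ p ∈ Kb L r, ex L p ∈ Bx L (R / 2) := fun p hp =>
    hR2sub (by linarith) (ex_mem (Kb_sub hr''1 hp))
  have hKr : ∀ p ∈ Kb L r, ex L p ∈ Bx L r'' := fun p hp => ex_mem (Kb_sub hr''1 hp)
  have hcontG : ContinuousOn (fun x : ℂ × (Fin L → ℂ) => GG S a zz j (ex L x.2) x.1)
      (Rc (2 * (R / 8)) (2 * (R / 8)) ×ˢ Kb L r) := by
    have h1 := U_cont hP hK hj.le
    have h2 : Continuous fun x : ℂ × (Fin L → ℂ) => Function.update x.2 ⟨j, hj⟩ x.1 :=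
      continuous_snd.update _ continuous_fst
    have h3 := h1.comp (s := Rc (2 * (R / 8)) (2 * (R / 8)) ×ˢ Kb L r) h2.continuousOn (by
      intro x hx i
      by_cases h : i = ⟨j, hj⟩
      · rw [h]
        simp only [Function.update_self]
        rw [hRc] at hx
        exact hRcm hx.1
      · simp only [Function.update_of_ne h]
        exact Rc_mono (by linarith) (by linarith) (Kb_sub hr''1 hx.2 i))
    refine h3.congr fun x _ => ?_
    simp only [Function.comp, GG]
    rw [ex_upd hj]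
  have hcontz : ContinuousOn (fun p : Fin L → ℂ => zz (j + 1) (ex L p) j) (Kb L r) :=
    ((continuous_apply (⟨j, hj⟩ : Fin L)).comp_continuousOn (zz_cont hP hK hj)).mono fun p hp i =>
      Rc_mono (by linarith) (by linarith) (Kb_sub hr''1 hp i)
  have hloc := hLN (R / 8) (R / 8) C (a j) (Fin L → ℂ) (Kb L r)
    (fun N w p => F' N (Function.update (ex L p) j w)) (fun w p => GG S a zz j (ex L p) w)
    (fun p => zz (j + 1) (ex L p) j) (by positivity) (by linarith) (by positivity) ha0 hC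
    (Kb_compact L r) (fun N p _ => (hF'S N).diff (ex L p) j)
    (fun p hp => by rw [hRc]; exact (GG_diff hK hj (hKb p hp)).mono hRcm)
    hcontG hcontz
    (by
      intro ε hε
      filter_upwards [hMW ε hε] with N h1 w hw p hp
      rw [hRc] at hw
      exact h1 _ (upd_Bx (hKr p hp) j hw hr''2.le hr'2))
    (fun p hp => ⟨(step_props hP hK hC hj haj (hKb p hp)).1,
      (step_props hP hK hC hj haj (hKb p hp)).2.1⟩)
  -- the expansion
  obtain ⟨Bs, hBs⟩ := U_bd hP hK hj.le
  have hupd : ∀ p ∈ Bx L r, ∀ w ∈ Rc (R / 4) (R / 4), Function.update p j w ∈ Bx L r' :=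
    fun p hp w hw => upd_Bx hp j hw (by linarith) hr'2
  have hr2s : Bx L r ⊆ Bx L (R / 2) := hR2sub hr2.le
  obtain ⟨A', hA', hA'0⟩ := f_LOCX (R / 4) (R / 4) (R / 16) (c / 2) 0 (a j) (ℕ → ℂ) (Bx L r)
    (fun _ _ => 1) (fun _ => 0) (fun k _ => if k = 0 then 1 else 0)
    (fun N w p => Complex.exp (-(N * GG S a zz j p w)) * F' N (Function.update p j w))
    (fun k x => A k (Function.update x.2 j x.1)) (fun w p => GG S a zz j p w)
    (fun p => zz (j + 1) p j) (fun p => Uj S a (j + 1) (zz (j + 1) p))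
    (fun N p => LN (R / 8) (a j) N fun w => F' N (Function.update p j w))
    (by positivity) (by positivity) (one_GX _) (fun N => differentiable_const _)
    (differentiableOn_const _)
    (by
      intro p hp u hu
      rw [mem_ball_zero_iff] at hu
      have h1 := (step_props hP hK hC hj haj (hr2s hp)).2.2.1
      have h2 := norm_add_le (zz (j + 1) p j) u
      exact mem_Rc_of_norm le_rfl (by linarith))
    ⟨max 0 Bs, fun w hw => ⟨by rw [norm_zero]; exact le_max_left _ _, fun p hp =>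
      (hBs _ (upd_mem (hr2s hp) j (hRcm hw))).trans (le_max_right _ _)⟩⟩
    (by
      intro N p hp
      have h1 : ContinuousOn (fun w => GG S a zz j p w) (Rc (R / 4) (R / 4)) :=
        ((GG_diff hK hj (hr2s hp)).mono hRcm).continuousOn
      have h2 : ContinuousOn (fun w => F' N (Function.update p j w)) (Rc (R / 4) (R / 4)) :=
        ((hF'S N).diff p j).continuous.continuousOn
      exact (Complex.continuous_exp.comp_continuousOn (continuousOn_const.mul h1).neg).mul h2)
    (fun p hp => (GG_diff hK hj (hr2s hp)).mono hRcm)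
    (Pool.Agent.W21.AX.ux_comp hux' (fun x : ℂ × (ℕ → ℂ) => Function.update x.2 j x.1) _
      fun x hx => hupd x.2 hx.2 x.1 hx.1)
    (by
      intro n p hp w hw
      have h1 := hAd n (Function.update p j w) (hupd p hp w hw) j hj
      simp only [Function.update_idem] at h1
      exact (h1.mono (Rc_mono hr'2 hr'2)) w hw)
    (by
      intro x hx h0
      have h1 := hA0 _ (hupd x.2 hx.2 x.1 hx.1)
      rw [h0, norm_zero] at h1
      linarith)
    (by
      intro p hp
      have h1 := step_props hP hK hC hj haj (hr2s hp)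
      have e0 : (fun w => 0 + GG S a zz j p w) = GG S a zz j p := by
        funext w
        rw [zero_add]
      rw [e0]
      exact ⟨h1.2.1.sn, h1.2.2.2.2, h1.2.1.crit, h1.2.2.2.1⟩)
    (by
      intro δ' hδ'0 hδ'
      obtain ⟨κ', hκ', h⟩ := hloc δ' hδ'0 (fun p hp => by
        have h1 := (step_props hP hK hC hj haj (hKb p hp)).2.2.1
        have h2 := Complex.abs_re_le_norm (zz (j + 1) (ex L p) j)
        linarith)
      refine ⟨κ', hκ', ?_⟩
      filter_upwards [h] with N h1 p hp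
      have h2 := h1 (rs L p) (rs_Kb hp)
      have e1 : ∀ i < L, ex L (rs L p) i = p i := fun i hi => ex_rs p hi
      have e2 : ∀ w : ℂ, ∀ i < L, Function.update (ex L (rs L p)) j w i =
          Function.update p j w i := by
        intro w i hi
        by_cases h : i = j
        · subst h
          rw [Function.update_self, Function.update_self]
        · rw [Function.update_of_ne h, Function.update_of_ne h, e1 i hi]
      have e3 : (fun w => F' N (Function.update (ex L (rs L p)) j w)) =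
          fun w => F' N (Function.update p j w) := by
        funext w
        exact sep_dep (hF'S N) (e2 w)
      have hrs : ex L (rs L p) ∈ Bx L (R / 2) := fun i hi => by
        rw [e1 i hi]
        exact hr2s hp i hi
      have e4 : zz (j + 1) (ex L (rs L p)) j = zz (j + 1) p j := zz_ext hP hK hj hrs e1 j hj
      have e5 : qq (a j) (fun w => GG S a zz j (ex L (rs L p)) w) (zz (j + 1) (ex L (rs L p)) j) =
          Uj S a (j + 1) (zz (j + 1) p) := by
        have h3 := (step_props hP hK hC hj haj hrs).2.2.2.2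
        refine Eq.trans h3.symm ?_
        exact Uj_ext hj hP (zz_ext hP hK hj hrs e1)
      rw [e5] at h2
      have e6 : ∀ w : ℂ, F' N (Function.update (ex L (rs L p)) j w) =
          F' N (Function.update p j w) := fun w => congrFun e3 w
      simp only [e6, e4] at h2
      refine le_trans (le_of_eq ?_) h2
      congr 2
      congr 1
      funext x
      have e7 : Complex.exp (N * GG S a zz j p (zz (j + 1) p j + x)) *
          Complex.exp (-(N * GG S a zz j p (zz (j + 1) p j + x))) = 1 := by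
        rw [← Complex.exp_add, add_neg_cancel, Complex.exp_zero]
      linear_combination (ig (a j) N (zz (j + 1) p j + x) *
        F' N (Function.update p j (zz (j + 1) p j + x))) * e7)
  refine ⟨A', ?_, hA'0⟩
  intro K
  obtain ⟨C', h⟩ := hA' K
  refine ⟨C', ?_⟩
  filter_upwards [h, hF'e] with N h1 h2 p hp
  have h3 := h1 p hp
  rw [h2] at h3
  refine le_trans (le_of_eq ?_) h3
  congr 2
  rw [mul_zero, pow_zero, zero_add, mul_one]
  ring

/-- the step -/
theorem step (hLN : S_LOCN) (hP : Pot L R c B p₀ S D) (hK : Crt L R c B p₀ C S D a zz)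
    (hC : 0 < C) {j : ℕ} (hj : j < L) (haj : MM R c B C ≤ |(a j : ℝ)|) (ha0 : a j ≠ 0)
    {F : ℕ → (ℕ → ℂ) → ℂ} (hF : ∀ᶠ N : ℕ in atTop, Sep L (F N))
    (hF2 : ∀ᶠ N : ℕ in atTop, Sep L (fun ψ => LN (R / 8) (a j) N fun w =>
      F N (Function.update ψ j w)))
    (hEX : ∀ r : ℝ, 0 < r → r < R / 2 → EXL L r F fun ψ => Uj S a j (zz j ψ))
    {r : ℝ} (hr : 0 < r) (hr2 : r < R / 2) :
    EXL L r (fun N ψ => (Real.sqrt N : ℂ) * (-1) ^ N *
      LN (R / 8) (a j) N fun w => F N (Function.update ψ j w))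
      (fun ψ => Uj S a (j + 1) (zz (j + 1) ψ)) := by
  have hR := hP.hR.1
  obtain ⟨r', hr'1, hr'2⟩ : ∃ r' : ℝ, r < r' ∧ r' < R / 2 :=
    ⟨(r + R / 2) / 2, by linarith, by linarith⟩
  obtain ⟨A, hA, hA0⟩ := step0 hLN hP hK hC hj haj ha0 hF hEX (r := r') (by linarith) hr'2
  have hsub : Bx L r ⊆ Bx L (R / 2) := Bx_mono hr2.le
  have hA1 := Pool.Agent.W21.AX.ux_comp hA (fun x : Fin L → ℂ => ex L x) (Kb L r)
    fun x hx => ex_mem (Kb_sub hr'1 hx)
  obtain ⟨c₁, hc₁, hlb⟩ := lb_of_ux (Kb_compact L r) (by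
    filter_upwards [hF2] with N h1
    have h2 : ContinuousOn (fun x : Fin L → ℂ => Uj S a (j + 1) (zz (j + 1) (ex L x))) (Kb L r) :=
      (U_cont hP hK hj).mono (Kb_sub hr2)
    have h3 : ContinuousOn (fun x : Fin L → ℂ => LN (R / 8) (a j) N fun w =>
        F N (Function.update (ex L x) j w)) (Kb L r) := (sep_cont h1 (cont_ex L)).continuousOn
    exact (Complex.continuous_exp.comp_continuousOn (continuousOn_const.mul h2).neg).mul
      (continuousOn_const.mul h3)) hA1 (fun x hx => hA0 _ (ex_mem (Kb_sub hr'1 hx)))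
  have hrm : Bx L r ⊆ Bx L r' := Bx_mono hr'1.le
  have hgood : ∀ ψ ∈ Bx L r, c₁ ≤ ‖A 0 ψ‖ := by
    intro ψ hψ
    have h1 := hlb (rs L ψ) (rs_Kb hψ)
    have e1 : ∀ i < L, ex L (rs L ψ) i = ψ i := fun i hi => ex_rs ψ hi
    have hm : ex L (rs L ψ) ∈ Bx L r := fun i hi => by
      rw [e1 i hi]
      exact hψ i hi
    have t1 := ux_tendsto hA (hrm hψ)
    have t2 := ux_tendsto hA (hrm hm)
    have e2 : A 0 (ex L (rs L ψ)) = A 0 ψ := by
      refine tendsto_nhds_unique (t2.congr' ?_) t1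
      filter_upwards [hF2] with N h2
      rw [sep_dep h2 e1, Uj_ext hj hP (zz_ext hP hK hj (hsub hm) e1)]
    rw [← e2]
    exact h1
  refine ⟨A, c₁, hc₁, fun K => ?_, hgood, ?_⟩
  · obtain ⟨C', h⟩ := hA K
    exact ⟨C', h.mono fun N h1 p hp => h1 p (hrm hp)⟩
  · intro k ψ hψ i hi
    have hupd : ∀ w ∈ Rc r r, Function.update ψ i w ∈ Bx L r := fun w hw => upd_mem hψ i hw
    refine Pool.Agent.W303.AX.uxan _ (fun k w => A k (Function.update ψ i w)) (Rc r r)
      (isOpen_Rc _ _) ?_ (Pool.Agent.W21.AX.ux_comp hA (fun w : ℂ => Function.update ψ i w)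
        (Rc r r) fun w hw => hrm (hupd w hw)) k
    filter_upwards [hF2] with N h1
    have h2 : DifferentiableOn ℂ (fun w : ℂ => Uj S a (j + 1)
        (zz (j + 1) (Function.update ψ i w))) (Rc r r) := by
      by_cases h : j + 1 ≤ i
      · intro w hw
        have h3 := hK.der (j + 1) hj _ (hsub (hupd w hw)) i h hi
        simp only [Function.update_idem, Function.update_self] at h3
        exact h3.differentiableAt.differentiableWithinAt
      · refine (differentiableOn_const (Uj S a (j + 1) (zz (j + 1) ψ))).congr fun w hw => ?_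
        rw [hK.dep (j + 1) hj _ (hsub (hupd w hw)) ψ (hsub hψ) fun l hl => ?_]
        rw [Function.update_of_ne (by omega)]
    have h4 : DifferentiableOn ℂ (fun w : ℂ => LN (R / 8) (a j) N fun w' =>
        F N (Function.update (Function.update ψ i w) j w')) (Rc r r) :=
      (h1.diff ψ i).differentiableOn
    exact (h2.const_mul (N : ℂ)).neg.cexp.mul (h4.const_mul ((Real.sqrt N : ℂ) * (-1) ^ N))

/-- ELX -/
theorem elx : S_ELX := by
  intro hLN L R c B p₀ C hC
  by_cases hcond : 0 < R ∧ 0 < c ∧ 0 < B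
  swap
  · exact ⟨1, one_pos, fun S D hP => absurd ⟨hP.hR.1, hP.hc, hP.hB⟩ hcond⟩
  obtain ⟨hR, hc, hB⟩ := hcond
  have hpi := Real.pi_pos
  have hC11 : 1 ≤ max 1 (B / (R / 8)) := le_max_left _ _
  have hM0 : 0 < MM R c B C := by
    unfold MM
    positivity
  refine ⟨MM R c B C, hM0, fun S D hP a ha zz hK f hf hlim => ?_⟩
  intro j
  induction j with
  | zero =>
    intro _ r hr hr2
    obtain ⟨A, c₁, hc₁, hux, hA0, hAd⟩ := hlim r hr hr2
    refine ⟨A, c₁, hc₁, fun K => ?_, hA0, hAd⟩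
    obtain ⟨C', h⟩ := hux K
    refine ⟨C', h.mono fun N h1 p hp => ?_⟩
    have h2 := h1 p hp
    have e : Uj S a 0 (zz 0 p) = S p := by
      rw [zz_zero hK (Bx_mono hr2.le hp)]
      simp [Uj]
    have e2 : itN (fun _ => R / 8) a N 0 (f N) p = f N p := rfl
    beta_reduce at h2 ⊢
    rw [e, e2, pow_zero, mul_zero, pow_zero, one_mul, one_mul]
    exact h2
  | succ j ih =>
    intro hj r hr hr2
    have hjL : j < L := hj
    have haj := ha j hjL
    have ha0 : a j ≠ 0 := by
      intro h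
      rw [h, Int.cast_zero, abs_zero] at haj
      linarith
    have hS : ∀ᶠ N : ℕ in atTop, Sep L (itN (fun _ => R / 8) a N j (f N)) := by
      filter_upwards [eventually_ge_atTop 1] with N hN
      exact itG_sep (fun i => LN_lin (R / 8) (a i) hN) (hf N) hjL.le
    have hlin : ∀ (N : ℕ) (k : ℂ) (g : ℂ → ℂ), LN (R / 8) (a j) N (fun w => k * g w) =
        k * LN (R / 8) (a j) N g := by
      intro N k g
      unfold LN
      rw [← intervalIntegral.integral_const_mul]
      congr 1
      funext x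
      ring
    have hmul : ∀ᶠ N : ℕ in atTop, Sep L (fun ψ => (Real.sqrt N : ℂ) ^ j * (-1) ^ (N * j) *
        itN (fun _ => R / 8) a N j (f N) ψ) := by
      filter_upwards [hS] with N h1
      exact (Sep.const _).mul h1
    have h := step hLN hP hK hC hjL haj ha0 hmul (by
      filter_upwards [hmul, eventually_ge_atTop 1] with N h1 hN
      exact h1.int hjL (LN_lin _ _ hN)) (ih hjL.le) hr hr2
    obtain ⟨A, c₁, hc₁, hux, hA0, hAd⟩ := h
    refine ⟨A, c₁, hc₁, fun K => ?_, hA0, hAd⟩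
    obtain ⟨C', h⟩ := hux K
    refine ⟨C', h.mono fun N h1 p hp => ?_⟩
    have h2 := h1 p hp
    refine le_trans (le_of_eq ?_) h2
    congr 2
    beta_reduce
    rw [hlin]
    have e2 : itN (fun _ => R / 8) a N (j + 1) (f N) p = LN (R / 8) (a j) N fun w =>
      itN (fun _ => R / 8) a N j (f N) (Function.update p j w) := rfl
    rw [e2]
    have e3 : N * (j + 1) = N * j + N := by ring
    rw [e3, pow_add, pow_succ]
    ring

end Pool.Agent.Y784.PH
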