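import Pool.Agent.Y482.Ph.Defs
import Pool.Agent.Y232.CB.EL

/-!
# PH-ELX (helper482), part A: continuity of the critical configurations
-/

set_option autoImplicit false

namespace Pool.Agent.Y784.PH

open Finset Filter Topology Metric
open Pool.Agent.W711.HT Pool.Agent.Y472 Pool.Agent.Y232.CB
open Pool.Agent.W293.HT (isOpen_Rc Rc_mono mem_Rc_of_norm)
open scoped Real

variable {L : ℕ} {R c B p₀ C : ℝ} {S : (ℕ → ℂ) → ℂ} {D : ℕ → (ℕ → ℂ) → ℂ} {a : ℕ → ℤ}
  {zz : ℕ → (ℕ → ℂ) → ℕ → ℂ}

/-- restriction to the first variables -/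
def rs (L : ℕ) (ψ : ℕ → ℂ) : Fin L → ℂ := fun i => ψ i

theorem ex_apply {L : ℕ} (x : Fin L → ℂ) {i : ℕ} (h : i < L) : ex L x i = x ⟨i, h⟩ := by
  simp [ex, h]

theorem ex_apply' {L : ℕ} (x : Fin L → ℂ) {i : ℕ} (h : ¬ i < L) : ex L x i = 0 := by
  simp [ex, h]

theorem ex_rs {L : ℕ} (ψ : ℕ → ℂ) {i : ℕ} (h : i < L) : ex L (rs L ψ) i = ψ i := by
  rw [ex_apply _ h]; rfl

theorem ex_mem {L : ℕ} {ρ : ℝ} {x : Fin L → ℂ} (hx : x ∈ bx L ρ) : ex L x ∈ Bx L ρ := by
  intro i hi
  rw [ex_apply _ hi]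
  exact hx _

theorem rs_mem {L : ℕ} {ρ : ℝ} {ψ : ℕ → ℂ} (hψ : ψ ∈ Bx L ρ) : rs L ψ ∈ bx L ρ :=
  fun i => hψ i i.2

theorem isOpen_bx (L : ℕ) (ρ : ℝ) : IsOpen (bx L ρ) := by
  have : bx L ρ = Set.univ.pi fun _ : Fin L => Rc ρ ρ := by
    ext x
    simp [bx]
  rw [this]
  exact isOpen_set_pi Set.finite_univ fun _ _ => isOpen_Rc _ _

theorem cont_ex (L i : ℕ) : Continuous fun x : Fin L → ℂ => ex L x i := by
  by_cases h : i < L
  · simp only [ex, h, dif_pos]
    exact continuous_apply _
  · simp only [ex, h, dif_neg, not_false_eq_true]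
    exact continuous_const

/-- the critical configuration depends only on the first `L` variables -/
theorem zz_ext (hP : Pot L R c B p₀ S D) (hK : Crt L R c B p₀ C S D a zz) {j : ℕ} (hj : j ≤ L)
    {ψ ψ' : ℕ → ℂ} (hψ : ψ ∈ Bx L (R / 2)) (h : ∀ i < L, ψ i = ψ' i) :
    ∀ i < L, zz j ψ i = zz j ψ' i := by
  have hψ' : ψ' ∈ Bx L (R / 2) := fun i hi => h i hi ▸ hψ i hi
  set y : ℕ → ℂ := fun i => if i < L then zz j ψ i else ψ' i with hy
  have hyL : ∀ i < L, y i = zz j ψ i := fun i hi => by simp [hy, hi]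
  have hzm : ∀ i < L, zz j ψ i ∈ Rc (R / 2) (R / 2) := by
    intro i hi
    by_cases h1 : i < j
    · have h2 := hK.sm j hj ψ hψ i h1
      exact mem_Rc_of_norm le_rfl (by linarith [h2.1, h2.2.1, hP.hR.1])
    · rw [hK.rest j hj ψ hψ i (by omega)]
      exact hψ i hi
  have hyz : y = zz j ψ' := by
    refine hK.uniq j hj ψ' hψ' y (fun i hi => by rw [hyL i hi]; exact hzm i hi) ?_ ?_
    · intro i hi
      by_cases hiL : i < L
      · rw [hyL i hiL, hK.rest j hj ψ hψ i hi, h i hiL]
      · simp [hy, hiL]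
    · intro i hi
      rw [(hP.dep y (zz j ψ) hyL).2 i, hyL i (by omega)]
      exact hK.crit j hj ψ hψ i hi
  intro i hi
  rw [← hyz, hyL i hi]

theorem Uj_ext {j : ℕ} (hj : j ≤ L) (hP : Pot L R c B p₀ S D) {y y' : ℕ → ℂ}
    (h : ∀ i < L, y i = y' i) : Uj S a j y = Uj S a j y' := by
  unfold Uj
  rw [(hP.dep y y' h).1]
  congr 1
  refine sum_congr rfl fun i hi => ?_
  rw [h i (by have := mem_range.1 hi; omega)]

theorem dcont (hP : Pot L R c B p₀ S D) {i : ℕ} (hi : i < L) {x : Fin L → ℂ} (hx : x ∈ bx L R) :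
    ContinuousAt (fun x => D i (ex L x)) x :=
  ((hP.dan i hi).differentiableAt ((isOpen_bx L R).mem_nhds hx)).continuousAt

theorem scont (hP : Pot L R c B p₀ S D) {x : Fin L → ℂ} (hx : x ∈ bx L R) :
    ContinuousAt (fun x => S (ex L x)) x :=
  (hP.an.differentiableAt ((isOpen_bx L R).mem_nhds hx)).continuousAt

/-- continuity of the critical configurations -/
theorem zz_cont (hP : Pot L R c B p₀ S D) (hK : Crt L R c B p₀ C S D a zz) {j : ℕ} (hj : j ≤ L) :
    ContinuousOn (fun x : Fin L → ℂ => rs L (zz j (ex L x))) (bx L (R / 2)) := by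
  intro x₀ hx₀
  have hR := hP.hR.1
  set K : Set (Fin L → ℂ) := Set.univ.pi fun i : Fin L =>
    if (i : ℕ) < j then closedBall (0 : ℂ) (C / |(a i : ℝ)|) else closedBall (x₀ i) 1 with hKd
  have hKc : IsCompact K := by
    refine isCompact_univ_pi fun i => ?_
    split_ifs
    · exact isCompact_closedBall _ _
    · exact isCompact_closedBall _ _
  refine hKc.tendsto_nhds_of_unique_mapClusterPt ?_ ?_
  · have h1 : ∀ᶠ x in 𝓝[bx L (R / 2)] x₀, ∀ i : Fin L, x i ∈ closedBall (x₀ i) 1 := by
      rw [eventually_all]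
      intro i
      have : ContinuousAt (fun x : Fin L → ℂ => x i) x₀ := (continuous_apply i).continuousAt
      exact mem_nhdsWithin_of_mem_nhds
        (this (closedBall_mem_nhds _ one_pos))
    filter_upwards [self_mem_nhdsWithin, h1] with x hx h1
    intro i _
    have hxe := ex_mem hx
    dsimp only
    by_cases hi : (i : ℕ) < j
    · rw [if_pos hi, mem_closedBall_zero_iff]
      exact (hK.sm j hj _ hxe i hi).1
    · rw [if_neg hi]
      have : rs L (zz j (ex L x)) i = x i := by
        show zz j (ex L x) i = x i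
        rw [hK.rest j hj _ hxe i (by omega), ex_apply _ i.2]
      rw [this]
      exact h1 i
  · intro y hyK hy
    rw [mapClusterPt_iff_ultrafilter] at hy
    obtain ⟨U, hU, hUt⟩ := hy
    have hUx : Tendsto (fun x : Fin L → ℂ => x) U (𝓝 x₀) := hU.trans nhdsWithin_le_nhds
    have hUm : ∀ᶠ x in (U : Filter (Fin L → ℂ)), x ∈ bx L (R / 2) := hU self_mem_nhdsWithin
    have hyi : ∀ i : Fin L, Tendsto (fun x : Fin L → ℂ => zz j (ex L x) i) U (𝓝 (y i)) := by
      intro i
      exact ((continuous_apply i).tendsto y).comp hUt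
    -- coordinates of `y`
    have hyr : ∀ i : Fin L, j ≤ (i : ℕ) → y i = x₀ i := by
      intro i hi
      refine tendsto_nhds_unique (hyi i) ?_
      have h1 : Tendsto (fun x : Fin L → ℂ => x i) U (𝓝 (x₀ i)) :=
        ((continuous_apply i).tendsto x₀).comp hUx
      refine h1.congr' ?_
      filter_upwards [hUm] with x hx
      rw [hK.rest j hj _ (ex_mem hx) i hi, ex_apply _ i.2]
    have hyb : y ∈ bx L (R / 2) := by
      intro i
      by_cases hi : (i : ℕ) < j
      · have h1 := hyK i (Set.mem_univ _)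
        dsimp only at h1
        rw [if_pos hi, mem_closedBall_zero_iff] at h1
        have h2 := (hK.sm j hj _ (ex_mem hx₀) i hi).2.1
        exact mem_Rc_of_norm le_rfl (by linarith)
      · rw [hyr i (by omega)]
        exact hx₀ i
    have hyR : y ∈ bx L R := fun i => Rc_mono (by linarith) (by linarith) (hyb i)
    have key : ex L y = zz j (ex L x₀) := by
      refine hK.uniq j hj _ (ex_mem hx₀) _ (ex_mem hyb) ?_ ?_
      · intro i hi
        by_cases hiL : i < L
        · rw [ex_apply _ hiL, ex_apply _ hiL]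
          exact hyr ⟨i, hiL⟩ hi
        · rw [ex_apply' _ hiL, ex_apply' _ hiL]
      · intro i hi
        have hiL : i < L := by omega
        have t1 : Tendsto (fun x : Fin L → ℂ => Complex.I * a i * zz j (ex L x) i / (2 * π) +
            Complex.I + D i (ex L (rs L (zz j (ex L x))))) U
            (𝓝 (Complex.I * a i * ex L y i / (2 * π) + Complex.I + D i (ex L y))) := by
          refine Tendsto.add (Tendsto.add (Tendsto.div_const (Tendsto.const_mul _ ?_) _)
            tendsto_const_nhds) ?_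
          · rw [ex_apply _ hiL]
            exact hyi ⟨i, hiL⟩
          · exact (dcont hP hiL hyR).tendsto.comp hUt
        have t2 : (fun x : Fin L → ℂ => Complex.I * a i * zz j (ex L x) i / (2 * π) +
            Complex.I + D i (ex L (rs L (zz j (ex L x))))) =ᶠ[U] fun _ => 0 := by
          filter_upwards [hUm] with x hx
          have e : D i (ex L (rs L (zz j (ex L x)))) = D i (zz j (ex L x)) :=
            (hP.dep _ _ fun k hk => ex_rs _ hk).2 i
          rw [e]
          exact hK.crit j hj _ (ex_mem hx) i hi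
        exact tendsto_nhds_unique t1 (tendsto_const_nhds.congr' t2.symm)
    funext i
    have h1 := congrFun key i
    rw [ex_apply _ i.2] at h1
    exact h1

/-- continuity of the critical value -/
theorem U_cont (hP : Pot L R c B p₀ S D) (hK : Crt L R c B p₀ C S D a zz) {j : ℕ} (hj : j ≤ L) :
    ContinuousOn (fun x : Fin L → ℂ => Uj S a j (zz j (ex L x))) (bx L (R / 2)) := by
  have hz := zz_cont hP hK hj
  have hm : ∀ x ∈ bx L (R / 2), rs L (zz j (ex L x)) ∈ bx L R := fun x hx =>
    rs_mem (zz_mem hP hK hj (ex_mem hx))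
  have h1 : ContinuousOn (fun x : Fin L → ℂ => S (ex L (rs L (zz j (ex L x))))) (bx L (R / 2)) :=
    ContinuousOn.comp (g := fun x => S (ex L x)) (t := bx L R)
      (fun x hx => (scont hP hx).continuousWithinAt) hz hm
  have h2 : ∀ i < j, ContinuousOn (fun x : Fin L → ℂ => zz j (ex L x) i) (bx L (R / 2)) := by
    intro i hi
    exact (continuous_apply (⟨i, by omega⟩ : Fin L)).comp_continuousOn hz
  have h3 : ContinuousOn (fun x : Fin L → ℂ => S (ex L (rs L (zz j (ex L x)))) +
      ∑ i ∈ range j, (Complex.I * a i * zz j (ex L x) i ^ 2 / (4 * π) +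
        Complex.I * zz j (ex L x) i)) (bx L (R / 2)) := by
    refine h1.add (continuousOn_finsetSum _ fun i hi => ?_)
    have h4 := h2 i (mem_range.1 hi)
    exact ((continuousOn_const.mul (h4.pow 2)).div_const _).add (continuousOn_const.mul h4)
  refine h3.congr fun x _ => ?_
  show S (zz j (ex L x)) + _ = S (ex L (rs L (zz j (ex L x)))) + _
  rw [(hP.dep (ex L (rs L (zz j (ex L x)))) (zz j (ex L x)) fun k hk => ex_rs _ hk).1]

end Pool.Agent.Y784.PH
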