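import Pool.Agent.Y784.PH.ELA
import Pool.Agent.W762.AX.Lx
import Pool.Agent.W21.AX.LOCX
import Pool.Agent.W303.AX.UX1

/-!
# PH-ELX (helper482), part B: general lemmas on expansions, and the data of one step
-/

set_option autoImplicit false

namespace Pool.Agent.Y784.PH

open Finset Filter Topology Metric
open Pool.Agent.W711.HT Pool.Agent.Y472 Pool.Agent.Y232.CB
open Pool.Agent.Y481 (itN itG Sep LN LN_lin itG_sep)
open Pool.Agent.W719.AX (UX ig)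
open Pool.Agent.W293.HT (GH isOpen_Rc Rc_mono mem_Rc_of_norm crit_props)
open scoped Real

/-- from the expansion to the modulus -/
theorem mw_of_ux {E : Type} {f : ℕ → E → ℂ} {Φ : E → ℂ} {A : ℕ → E → ℂ} {S : Set E} {c₁ : ℝ}
    (hc₁ : 0 < c₁) (h : UX (fun N ψ => Complex.exp (-(N * Φ ψ)) * f N ψ) A S)
    (hA : ∀ ψ ∈ S, c₁ ≤ ‖A 0 ψ‖) (ε : ℝ) (hε : 0 < ε) :
    ∀ᶠ N : ℕ in atTop, ∀ ψ ∈ S,
      f N ψ ≠ 0 ∧ |Real.log ‖f N ψ‖ - N * (Φ ψ).re| ≤ ε * N := by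
  obtain ⟨C, hC⟩ := h 1
  obtain ⟨B, hB0, hB⟩ := Pool.Agent.W303.AX.uxbd' h 0
  set M : ℝ := max |Real.log (c₁ / 2)| |Real.log (B + c₁ / 2)| with hM
  have e1 : ∀ᶠ N : ℕ in atTop, C / (N : ℝ) < c₁ / 2 :=
    (tendsto_const_div_atTop_nhds_zero_nat C).eventually_lt_const (by positivity)
  have e2 : ∀ᶠ N : ℕ in atTop, M / (N : ℝ) < ε :=
    (tendsto_const_div_atTop_nhds_zero_nat M).eventually_lt_const hε
  filter_upwards [hC, e1, e2, eventually_ge_atTop 1] with N h1 h2 h3 h4 ψ hψ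
  have hN : (0 : ℝ) < N := by exact_mod_cast h4
  have k1 := h1 ψ hψ
  rw [Finset.sum_range_one, pow_zero, div_one, pow_one] at k1
  set Y : ℂ := Complex.exp (-(N * Φ ψ)) * f N ψ with hY
  have k2 : c₁ / 2 ≤ ‖Y‖ := by
    have h5 : ‖A 0 ψ‖ ≤ ‖Y‖ + ‖Y - A 0 ψ‖ := by
      have := norm_sub_le Y (Y - A 0 ψ)
      rwa [sub_sub_cancel] at this
    linarith [hA ψ hψ]
  have k3 : ‖Y‖ ≤ B + c₁ / 2 := by
    have h5 := norm_add_le (Y - A 0 ψ) (A 0 ψ)
    rw [sub_add_cancel] at h5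
    linarith [hB ψ hψ]
  have hY0 : 0 < ‖Y‖ := lt_of_lt_of_le (by positivity) k2
  have hf : f N ψ ≠ 0 := by
    intro h0
    rw [hY, h0, mul_zero, norm_zero] at hY0
    exact lt_irrefl _ hY0
  refine ⟨hf, ?_⟩
  have k4 : Real.log ‖Y‖ = Real.log ‖f N ψ‖ - N * (Φ ψ).re := by
    rw [hY, norm_mul, Real.log_mul (norm_ne_zero_iff.2 (Complex.exp_ne_zero _))
      (norm_ne_zero_iff.2 hf), Complex.norm_exp, Real.log_exp, Complex.neg_re,
      Complex.mul_re, Complex.natCast_re, Complex.natCast_im]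
    ring
  rw [← k4]
  have k5 : Real.log (c₁ / 2) ≤ Real.log ‖Y‖ := Real.log_le_log (by positivity) k2
  have k6 : Real.log ‖Y‖ ≤ Real.log (B + c₁ / 2) := Real.log_le_log hY0 k3
  have k7 : |Real.log ‖Y‖| ≤ M := by
    rw [abs_le]
    have m1 := le_max_left |Real.log (c₁ / 2)| |Real.log (B + c₁ / 2)|
    have m2 := le_max_right |Real.log (c₁ / 2)| |Real.log (B + c₁ / 2)|
    have m3 := neg_abs_le (Real.log (c₁ / 2))
    have m4 := le_abs_self (Real.log (B + c₁ / 2))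
    constructor <;> linarith
  refine k7.trans ?_
  rw [div_lt_iff₀ hN] at h3
  exact h3.le

/-- lower bound of the first coefficient on a compact set -/
theorem lb_of_ux {E : Type} [TopologicalSpace E] {Y A : ℕ → E → ℂ} {K : Set E} (hK : IsCompact K)
    (hY : ∀ᶠ N : ℕ in atTop, ContinuousOn (Y N) K) (h : UX Y A K) (h0 : ∀ p ∈ K, A 0 p ≠ 0) :
    ∃ c : ℝ, 0 < c ∧ ∀ p ∈ K, c ≤ ‖A 0 p‖ := by
  rcases K.eq_empty_or_nonempty with hE | hne
  · exact ⟨1, one_pos, fun p hp => by rw [hE] at hp; exact absurd hp (Set.notMem_empty p)⟩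
  obtain ⟨C, hC⟩ := h 1
  have hlim : TendstoUniformlyOn Y (A 0) atTop K := by
    rw [Metric.tendstoUniformlyOn_iff]
    intro ε hε
    have e1 : ∀ᶠ N : ℕ in atTop, C / (N : ℝ) < ε :=
      (tendsto_const_div_atTop_nhds_zero_nat C).eventually_lt_const hε
    filter_upwards [hC, e1] with N h1 h2 p hp
    have h3 := h1 p hp
    rw [Finset.sum_range_one, pow_zero, div_one, pow_one] at h3
    rw [dist_comm, dist_eq_norm]
    linarith
  have hcont : ContinuousOn (A 0) K := hlim.continuousOn hY.frequently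
  obtain ⟨x, hx, hm⟩ := hK.exists_isMinOn hne hcont.norm
  exact ⟨‖A 0 x‖, norm_pos_iff.2 (h0 x hx), fun p hp => hm hp⟩

/-- continuity of finite sums of products -/
theorem sep_cont {L : ℕ} {f : (ℕ → ℂ) → ℂ} (hf : Sep L f) {X : Type} [TopologicalSpace X]
    {g : X → ℕ → ℂ} (hg : ∀ i, Continuous fun x => g x i) : Continuous fun x => f (g x) := by
  obtain ⟨ι, I, c, A, hA, hf⟩ := hf
  have h1 : (fun x => f (g x)) = fun x => ∑ i ∈ I, c i * ∏ k ∈ range L, A i k (g x k) := by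
    funext x
    rw [hf]
  rw [h1]
  refine continuous_finsetSum _ fun i _ => continuous_const.mul ?_
  exact continuous_finsetProd _ fun k _ => (hA i k).continuous.comp (hg k)

theorem sep_dep {L : ℕ} {f : (ℕ → ℂ) → ℂ} (hf : Sep L f) {ψ ψ' : ℕ → ℂ}
    (h : ∀ i < L, ψ i = ψ' i) : f ψ = f ψ' := by
  obtain ⟨ι, I, c, A, hA, hf⟩ := hf
  rw [hf, hf]
  refine sum_congr rfl fun i _ => ?_
  congr 1
  refine prod_congr rfl fun k hk => ?_
  rw [h k (mem_range.1 hk)]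

variable {L : ℕ} {R c B p₀ C : ℝ} {S : (ℕ → ℂ) → ℂ} {D : ℕ → (ℕ → ℂ) → ℂ} {a : ℕ → ℤ}
  {zz : ℕ → (ℕ → ℂ) → ℕ → ℂ}

/-- the closed box -/
def Kb (L : ℕ) (r : ℝ) : Set (Fin L → ℂ) :=
  Set.univ.pi fun _ : Fin L => Set.Icc (-r) r ×ℂ Set.Icc (-r) r

theorem Kb_mem {L : ℕ} {r : ℝ} {x : Fin L → ℂ} :
    x ∈ Kb L r ↔ ∀ i, |(x i).re| ≤ r ∧ |(x i).im| ≤ r := by
  simp only [Kb, Set.mem_pi, Set.mem_univ, true_imp_iff, Complex.mem_reProdIm, Set.mem_Icc, abs_le]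

theorem Kb_compact (L : ℕ) (r : ℝ) : IsCompact (Kb L r) :=
  isCompact_univ_pi fun _ => isCompact_Icc.reProdIm isCompact_Icc

theorem Kb_sub {L : ℕ} {r r' : ℝ} (h : r < r') : Kb L r ⊆ bx L r' := by
  intro x hx i
  have := Kb_mem.1 hx i
  exact ⟨by linarith [this.1], by linarith [this.2]⟩

theorem rs_Kb {L : ℕ} {r : ℝ} {ψ : ℕ → ℂ} (h : ψ ∈ Bx L r) : rs L ψ ∈ Kb L r :=
  Kb_mem.2 fun i => ⟨(h i i.2).1.le, (h i i.2).2.le⟩

theorem Bx_mono {L : ℕ} {r r' : ℝ} (h : r ≤ r') : Bx L r ⊆ Bx L r' :=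
  fun _ hψ i hi => Rc_mono h h (hψ i hi)

/-- the number `M` -/
noncomputable def MM (R c B C : ℝ) : ℝ :=
  8 * π * max 1 (B / (R / 8)) + (8 * π / (R / 8) + 1) +
    (2 * π * (4 * max 1 (B / (R / 8)) + 10) / (c / 2 * (R / 8) ^ 2) + 1) + C

/-- properties of the critical point of one step -/
theorem step_props (hP : Pot L R c B p₀ S D) (hK : Crt L R c B p₀ C S D a zz) (hC : 0 < C)
    {j : ℕ} (hj : j < L) (haj : MM R c B C ≤ |(a j : ℝ)|) {ψ : ℕ → ℂ} (hψ : ψ ∈ Bx L (R / 2)) :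
    CPt C (R / 8) (R / 8) (a j) (zz (j + 1) ψ j) ∧
    SAD (a j) (GG S a zz j ψ) (R / 8) (zz (j + 1) ψ j) ∧
    ‖zz (j + 1) ψ j‖ < R / 16 ∧
    (deriv (deriv (qq (a j) (GG S a zz j ψ))) (zz (j + 1) ψ j)).re ≤ -(c / 2) ∧
    Uj S a (j + 1) (zz (j + 1) ψ) = qq (a j) (GG S a zz j ψ) (zz (j + 1) ψ j) := by
  have hR := hP.hR.1
  have hR1 := hP.hR.2
  have hc := hP.hc
  have hB := hP.hB
  set C1 : ℝ := max 1 (B / (R / 8)) with hC1
  have hC11 : 1 ≤ C1 := le_max_left _ _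
  have hpi := Real.pi_pos
  have hM1 : 0 < 8 * π / (R / 8) := by positivity
  have hM2 : 0 < 2 * π * (4 * C1 + 10) / (c / 2 * (R / 8) ^ 2) := by positivity
  have hM3 : 0 < 8 * π * C1 := by positivity
  have hM : MM R c B C = 8 * π * C1 + (8 * π / (R / 8) + 1) +
    (2 * π * (4 * C1 + 10) / (c / 2 * (R / 8) ^ 2) + 1) + C := rfl
  have hGH := GG_GH hP hK hj hψ
  rw [← hC1] at hGH
  set z : ℂ := zz (j + 1) ψ j with hz
  have ha0 : 0 < |(a j : ℝ)| := lt_of_lt_of_le (by rw [hM]; positivity) haj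
  set A : ℝ := a j / (2 * π) with hA
  have hAabs : |A| = |(a j : ℝ)| / (2 * π) := by
    rw [hA, abs_div, abs_of_pos (by positivity : (0 : ℝ) < 2 * π)]
  have hApos : 0 < |A| := by rw [hAabs]; positivity
  have hsm := hK.sm (j + 1) hj ψ hψ j (Nat.lt_succ_self j)
  have hsq : ((a j : ℝ)) ^ 2 = |(a j : ℝ)| ^ 2 := (sq_abs _).symm
  have hznorm : ‖z‖ ≤ 2 / |A| := by
    have h1 := hsm.2.2.1
    have h2 : ‖(2 * π / a j : ℂ)‖ = 2 * π / |(a j : ℝ)| := by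
      rw [norm_div, norm_mul]
      simp [abs_of_pos hpi]
    have h3 : ‖z‖ ≤ ‖z + 2 * π / a j‖ + ‖(2 * π / a j : ℂ)‖ := by
      have := norm_sub_le (z + 2 * π / a j) (2 * π / a j)
      simpa using this
    have h4 : C / (a j : ℝ) ^ 2 ≤ 2 * π / |(a j : ℝ)| := by
      rw [hsq, div_le_div_iff₀ (by positivity) ha0]
      have h5 : C ≤ |(a j : ℝ)| := by linarith
      have h6 : C * |(a j : ℝ)| ≤ |(a j : ℝ)| * |(a j : ℝ)| :=
        mul_le_mul_of_nonneg_right h5 ha0.le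
      have h7 : |(a j : ℝ)| * |(a j : ℝ)| ≤ 2 * π * |(a j : ℝ)| ^ 2 := by
        have := Real.pi_gt_three
        nlinarith [sq_nonneg |(a j : ℝ)|]
      linarith
    have h5 : 2 / |A| = 2 * π / |(a j : ℝ)| + 2 * π / |(a j : ℝ)| := by
      rw [hAabs]
      field_simp
      ring
    rw [h5]
    linarith
  have hstep := hK.step j hj ψ hψ
  have hzR2 : z ∈ Rc (R / 2) (R / 2) :=
    mem_Rc_of_norm le_rfl (by linarith [hsm.1, hsm.2.1])
  have hcr : Complex.I * A * z + Complex.I + deriv (GG S a zz j ψ) z = 0 := by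
    rw [GG_deriv hK hj hψ hzR2, hstep.2]
    have h1 := hK.crit (j + 1) hj ψ hψ j (Nat.lt_succ_self j)
    rw [← h1, hA]
    push_cast
    ring
  have hA1 : 4 * C1 ≤ |A| := by
    rw [hAabs, le_div_iff₀ (by positivity)]
    linarith
  have hA2 : 4 / |A| < R / 8 := by
    rw [hAabs, div_div_eq_mul_div, div_lt_iff₀ ha0]
    have h1 : 8 * π / (R / 8) < |(a j : ℝ)| := by linarith
    rw [div_lt_iff₀ (by positivity)] at h1
    linarith
  have hA3 : (4 * C1 + 10) / |A| < c / 2 * (R / 8) ^ 2 := by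
    rw [hAabs, div_div_eq_mul_div, div_lt_iff₀ ha0]
    have h1 : 2 * π * (4 * C1 + 10) / (c / 2 * (R / 8) ^ 2) < |(a j : ℝ)| := by linarith
    rw [div_lt_iff₀ (by positivity)] at h1
    linarith
  obtain ⟨hzm, him, -, hSAD, -⟩ := crit_props hGH (by positivity) le_rfl (by linarith)
    (by positivity) hC11 (a j) A hA hA1 hA2 hA3 z hznorm hcr
  refine ⟨⟨hzm, hsm.2.2.2, hsm.2.2.1⟩, hSAD, ?_, ?_, hstep.1⟩
  · have h1 : 4 / |A| = 2 / |A| + 2 / |A| := by ring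
    linarith
  · rw [hGH.deriv2_qq (a j) (Rc_mono (by linarith) (by linarith) hzm), Complex.add_re,
      Pool.Agent.W293.HT.re_I_a, zero_add]
    exact GG_conc hK hj hψ hzR2

end Pool.Agent.Y784.PH
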